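import Pool.Agent.helper18.KU.Spec

set_option autoImplicit false

namespace Pool.Agent.KU

open Finset

noncomputable section

theorem CR2 (hEIN : EIN_stmt) (hFNS : FNS_stmt) (hCRI : CRI_stmt) : CR2_stmt := by
  intro V _ S X w hC hI hS hnd
  unfold CrDj at hnd
  push_neg at hnd
  obtain ⟨Q, Q', hQ, hQ', hne, hnd⟩ := hnd
  obtain ⟨hE0, hE1, hE2, hE3, hE4, hE5, hE6, hE7, hE8⟩ := hEIN V w hC.sy
  obtain ⟨hF0, hF1, hF2, hF3, hF4, -⟩ := hFNS V w X hC.sy
  obtain ⟨hX1, hf1, -, -, -⟩ := hCRI V S X w hC hI (by omega) Q hQ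
  obtain ⟨hX2, hf2, -, -, -⟩ := hCRI V S X w hC hI (by omega) Q' hQ'
  obtain ⟨hQS, hQ3, hQE⟩ := hQ
  obtain ⟨hQS', hQ3', hQE'⟩ := hQ'
  have hw2 : ∀ a ∈ S, ∀ b ∈ S, a ≠ b → w a b ≤ 2 := by
    intro a ha b hb hab
    have h := hC.v {a, b} (by
      intro z hz
      rcases Finset.mem_insert.1 hz with rfl | hz
      · exact ha
      · rw [Finset.mem_singleton.1 hz]
        exact hb) (by rw [Finset.card_pair hab])
    rw [hE4 a b hab, Finset.card_pair hab] at h
    omega
  have hsup := hF4 Q Q'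
  have hcard := Finset.card_union_add_card_inter Q Q'
  have hpos : 0 < (Q ∩ Q').card := by
    rw [Finset.card_pos]
    by_contra h0
    rw [Finset.not_nonempty_iff_eq_empty] at h0
    exact hnd (Finset.disjoint_iff_inter_eq_empty.2 h0)
  have hlt : (Q ∩ Q').card < 3 := by
    by_contra h0
    push_neg at h0
    have h1 : Q ∩ Q' = Q := Finset.eq_of_subset_of_card_le Finset.inter_subset_left (by omega)
    have h2 : Q ⊆ Q' := by
      rw [← h1]
      exact Finset.inter_subset_right
    exact hne (Finset.eq_of_subset_of_card_le h2 (by omega))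
  have hUS : Q ∪ Q' ⊆ S := Finset.union_subset hQS hQS'
  have hUne : (Q ∪ Q').Nonempty := by
    rw [← Finset.card_pos]
    omega
  have hU1 : Q ∪ Q' ≠ S → 1 ≤ f X w (Q ∪ Q') := fun h => (hI (Q ∪ Q') hUS hUne h).1
  have hcases : (Q ∩ Q').card = 1 ∨ (Q ∩ Q').card = 2 := by omega
  rcases hcases with h1 | h1
  · obtain ⟨s, hs⟩ := Finset.card_eq_one.1 h1
    have hsQ : s ∈ Q := Finset.mem_of_mem_inter_left (by rw [hs]; exact Finset.mem_singleton_self s)
    have hsQ' : s ∈ Q' := Finset.mem_of_mem_inter_right (by rw [hs]; exact Finset.mem_singleton_self s)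
    rw [hs, hF1 s, hX1 s hsQ, hf1, hf2] at hsup
    have hU : Q ∪ Q' = S := by
      by_contra h0
      have := hU1 h0
      push_cast at hsup
      omega
    have hS5 : S.card = 5 := by
      rw [← hU]
      omega
    have hXS : ∀ u ∈ S, X u = 1 := by
      intro u hu
      rw [← hU] at hu
      rcases Finset.mem_union.1 hu with hu | hu
      · exact hX1 u hu
      · exact hX2 u hu
    have hQe : (Q.erase s).card = 2 := by
      rw [Finset.card_erase_of_mem hsQ, hQ3]
    have hQe' : (Q'.erase s).card = 2 := by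
      rw [Finset.card_erase_of_mem hsQ', hQ3']
    obtain ⟨a, b, hab, hQab⟩ := Finset.card_eq_two.1 hQe
    obtain ⟨c, d, hcd, hQcd⟩ := Finset.card_eq_two.1 hQe'
    have haQ : a ∈ Q.erase s := by rw [hQab]; exact Finset.mem_insert_self _ _
    have hbQ : b ∈ Q.erase s := by
      rw [hQab]
      exact Finset.mem_insert_of_mem (Finset.mem_singleton_self _)
    have hcQ : c ∈ Q'.erase s := by rw [hQcd]; exact Finset.mem_insert_self _ _
    have hdQ : d ∈ Q'.erase s := by
      rw [hQcd]
      exact Finset.mem_insert_of_mem (Finset.mem_singleton_self _)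
    rw [Finset.mem_erase] at haQ hbQ hcQ hdQ
    have hdis : ∀ u ∈ Q, ∀ z ∈ Q', u ≠ s → u ≠ z := by
      intro u hu z hz hus he
      have h2 : u ∈ Q ∩ Q' := Finset.mem_inter.2 ⟨hu, he ▸ hz⟩
      rw [hs] at h2
      exact hus (Finset.mem_singleton.1 h2)
    have hsa : s ≠ a := haQ.1.symm
    have hsb : s ≠ b := hbQ.1.symm
    have hsc : s ≠ c := hcQ.1.symm
    have hsd : s ≠ d := hdQ.1.symm
    have hac : a ≠ c := hdis a haQ.2 c hcQ.2 haQ.1
    have had : a ≠ d := hdis a haQ.2 d hdQ.2 haQ.1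
    have hbc : b ≠ c := hdis b hbQ.2 c hcQ.2 hbQ.1
    have hbd : b ≠ d := hdis b hbQ.2 d hdQ.2 hbQ.1
    have hQeq : Q = {s, a, b} := by
      rw [← Finset.insert_erase hsQ, hQab]
    have hQeq' : Q' = {s, c, d} := by
      rw [← Finset.insert_erase hsQ', hQcd]
    have hSeq : S = {s, a, b} ∪ {c, d} := by
      rw [← hU, hQeq, hQeq']
      ext z
      simp only [Finset.mem_union, Finset.mem_insert, Finset.mem_singleton]
      tauto
    have hSeq' : S = {s, a, b, c, d} := by
      rw [hSeq]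
      ext z
      simp only [Finset.mem_union, Finset.mem_insert, Finset.mem_singleton]
      tauto
    have hDis : Disjoint ({s, a, b} : Finset V) {c, d} := by
      rw [Finset.disjoint_left]
      intro z hz hz'
      simp only [Finset.mem_insert, Finset.mem_singleton] at hz hz'
      rcases hz with rfl | rfl | rfl <;> rcases hz' with h0 | h0
      · exact hsc h0
      · exact hsd h0
      · exact hac h0
      · exact had h0
      · exact hbc h0
      · exact hbd h0
    have hQE1 := hQE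
    have hQE2 := hQE'
    rw [hQeq, hE5 s a b hsa hsb hab] at hQE1
    rw [hQeq', hE5 s c d hsc hsd hcd] at hQE2
    have htot := hC.tot
    unfold f at htot
    have hsumX : ∑ v ∈ S, (X v : ℤ) = 5 := by
      rw [Finset.sum_congr rfl (fun u hu => by rw [hXS u hu] : ∀ u ∈ S, (X u : ℤ) = ((1 : ℕ) : ℤ))]
      rw [Finset.sum_const, hS5]
      norm_num
    rw [hS5, hsumX] at htot
    have hES : E w S = 10 := by
      push_cast at htot
      omega
    have hE6' := hE6 {s, a, b} {c, d} hDis
    rw [← hSeq, hES, hE5 s a b hsa hsb hab, hE4 c d hcd] at hE6'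
    have hsum3 : ∑ u ∈ ({s, a, b} : Finset V), dg w {c, d} u = dg w {c, d} s + (dg w {c, d} a + dg w {c, d} b) := by
      rw [Finset.sum_insert (by simp [hsa, hsb]), Finset.sum_pair hab]
    have hdg : ∀ u, dg w {c, d} u = w u c + w u d := by
      intro u
      unfold dg
      rw [Finset.sum_pair hcd]
    rw [hsum3, hdg, hdg, hdg] at hE6'
    have haS : a ∈ S := hQS haQ.2
    have hbS : b ∈ S := hQS hbQ.2
    have hcS : c ∈ S := hQS' hcQ.2
    have hdS : d ∈ S := hQS' hdQ.2
    have hsS : s ∈ S := hQS hsQ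
    refine ⟨s, a, b, c, d, hsa, hsb, hsc, hsd, hab, hac, had, hbc, hbd, hcd, hSeq', ⟨hw2 s hsS a haS hsa,
      hw2 s hsS b hbS hsb, hw2 a haS b hbS hab, hQE1⟩, ⟨hw2 s hsS c hcS hsc, hw2 s hsS d hdS hsd,
      hw2 c hcS d hdS hcd, hQE2⟩, by omega, by omega, by omega, by omega, hXS⟩
  · exfalso
    obtain ⟨a, b, hab, hQab⟩ := Finset.card_eq_two.1 h1
    have haI : a ∈ Q ∩ Q' := by rw [hQab]; exact Finset.mem_insert_self _ _
    have hbI : b ∈ Q ∩ Q' := by
      rw [hQab]
      exact Finset.mem_insert_of_mem (Finset.mem_singleton_self _)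
    have haQ := Finset.mem_of_mem_inter_left haI
    have hbQ := Finset.mem_of_mem_inter_left hbI
    have hw := hw2 a (hQS haQ) b (hQS hbQ) hab
    have hfab : f X w {a, b} = 6 - (w a b : ℤ) - 2 := by
      unfold f
      rw [Finset.card_pair hab, hE4 a b hab, Finset.sum_pair hab, hX1 a haQ, hX1 b hbQ]
      norm_num
    have hUne' : Q ∪ Q' ≠ S := by
      intro h0
      rw [← h0] at hS
      omega
    have h3 := hU1 hUne'
    rw [hQab, hfab, hf1, hf2] at hsup
    omega

end

end Pool.Agent.KU
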