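import Pool.Agent.helper18.KU.Spec

set_option autoImplicit false

namespace Pool.Agent.KU

open Finset

noncomputable section

theorem INS (hACI : ACI_stmt) : INS_stmt := by
  intro V _ S X' X w' w h φ v R g s hv hw hst hR hg hs hact hX hww hXv hwv
  obtain ⟨h', hh'⟩ : ∃ h' : V → ZMod 3 → Option V,
      h' = fun u k => if u = v then g k else if (u, k) ∈ R then some v else h u k := ⟨_, rfl⟩
  obtain ⟨φ', hφ'⟩ : ∃ φ' : V → ℝ, φ' = fun u => if u = v then s else φ u := ⟨_, rfl⟩
  have hSv : ∀ u ∈ S, u ≠ v := fun u hu he => hv (he ▸ hu)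
  have hv1 : ∀ k, h' v k = g k := by
    intro k
    rw [hh']
    exact if_pos rfl
  have hu1 : ∀ u ∈ S, ∀ k, h' u k = if (u, k) ∈ R then some v else h u k := by
    intro u hu k
    rw [hh']
    exact if_neg (hSv u hu)
  have hv2 : φ' v = s := by
    rw [hφ']
    exact if_pos rfl
  have hu2 : ∀ u ∈ S, φ' u = φ u := by
    intro u hu
    rw [hφ']
    exact if_neg (hSv u hu)
  have hnv : ∀ u ∈ S, ∀ k, h u k ≠ some v := by
    intro u hu k he
    exact hv (hst.mem u hu k v he).1
  have hXu : ∀ u ∈ S, (univ.filter fun k => h' u k = none) = univ.filter fun k => (u, k) ∉ R ∧ h u k = none := by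
    intro u hu
    apply Finset.filter_congr
    intro k _
    rw [hu1 u hu k]
    by_cases hk : (u, k) ∈ R
    · rw [if_pos hk]
      constructor
      · intro h0
        exact absurd h0 (by simp)
      · intro h0
        exact absurd hk h0.1
    · rw [if_neg hk]
      exact ⟨fun h0 => ⟨hk, h0⟩, fun h0 => h0.2⟩
  have hwuz : ∀ u ∈ S, ∀ z ∈ S, (univ.filter fun k => h' u k = some z) =
      univ.filter fun k => (u, k) ∉ R ∧ h u k = some z := by
    intro u hu z hz
    apply Finset.filter_congr
    intro k _
    rw [hu1 u hu k]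
    by_cases hk : (u, k) ∈ R
    · rw [if_pos hk]
      constructor
      · intro h0
        exact absurd (Option.some.inj h0).symm (hSv z hz)
      · intro h0
        exact absurd hk h0.1
    · rw [if_neg hk]
      exact ⟨fun h0 => ⟨hk, h0⟩, fun h0 => h0.2⟩
  have hwuv : ∀ u ∈ S, (univ.filter fun k => h' u k = some v) = univ.filter fun k => (u, k) ∈ R := by
    intro u hu
    apply Finset.filter_congr
    intro k _
    rw [hu1 u hu k]
    by_cases hk : (u, k) ∈ R
    · rw [if_pos hk]
      exact ⟨fun _ => hk, fun _ => rfl⟩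
    · rw [if_neg hk]
      exact ⟨fun h0 => absurd h0 (hnv u hu k), fun h0 => absurd h0 hk⟩
  have hgz : ∀ z, (univ.filter fun k => h' v k = some z) = univ.filter fun k => g k = some z := by
    intro z
    apply Finset.filter_congr
    intro k _
    rw [hv1 k]
  have hgn : (univ.filter fun k => h' v k = none) = univ.filter fun k => g k = none := by
    apply Finset.filter_congr
    intro k _
    rw [hv1 k]
  refine ⟨h', φ', ?_, ?_, ?_, ?_, ?_⟩
  · -- mem
    intro u hu k z hz
    rcases Finset.mem_insert.1 hu with hue | huS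
    · rw [hue, hv1 k] at hz
      have hzS := hg k z hz
      rw [hue]
      exact ⟨Finset.mem_insert_of_mem hzS, hSv z hzS⟩
    · rw [hu1 u huS k] at hz
      by_cases hk : (u, k) ∈ R
      · rw [if_pos hk] at hz
        have hzv : v = z := Option.some.inj hz
        rw [← hzv]
        exact ⟨Finset.mem_insert_self _ _, (hSv u huS).symm⟩
      · rw [if_neg hk] at hz
        have h1 := hst.mem u huS k z hz
        exact ⟨Finset.mem_insert_of_mem h1.1, h1.2⟩
  · -- cX
    intro u hu
    rcases Finset.mem_insert.1 hu with hue | huS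
    · rw [hue, hgn]
      exact hXv
    · rw [hXu u huS]
      exact hX u huS
  · -- cw
    intro u hu z hz huz
    rcases Finset.mem_insert.1 hu with hue | huS
    · rcases Finset.mem_insert.1 hz with hze | hzS'
      · exact absurd (hue.trans hze.symm) huz
      · rw [hue, hgz z, hwuv z hzS']
        exact hwv z hzS'
    · rcases Finset.mem_insert.1 hz with hze | hzS'
      · rw [hze, hgz u, hwuv u huS, hw.symm u v, add_comm]
        exact hwv u huS
      · rw [hwuz u huS z hzS', hwuz z hzS' u huS]
        exact hww u huS z hzS' huz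
  · -- dist
    intro u hu z hz huz n hn
    rcases Finset.mem_insert.1 hu with hue | huS
    · rcases Finset.mem_insert.1 hz with hze | hzS'
      · exact huz (hue.trans hze.symm)
      · rw [hue, hv2, hu2 z hzS'] at hn
        exact hs z hzS' n hn
    · rcases Finset.mem_insert.1 hz with hze | hzS'
      · rw [hze, hv2, hu2 u huS] at hn
        refine hs u huS (-n) ?_
        push_cast
        linarith
      · rw [hu2 u huS, hu2 z hzS'] at hn
        exact hst.dist u huS z hzS' huz n hn
  · -- ac
    intro t
    obtain ⟨ρ, hρ⟩ := hACI V S (S.filter fun u => (u, ((⌊t - φ u⌋ : ℤ) : ZMod 3)) ∈ R) (ptr h φ t) v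
      (g ((⌊t - s⌋ : ℤ) : ZMod 3)) hv (Finset.filter_subset _ _) (hst.ac t)
      (fun u hu => hnv u hu _) (fun b hb => hg _ b hb)
      (by
        rcases hact t with h0 | h0
        · exact Or.inl h0
        · right
          intro a ha
          rw [Finset.mem_filter] at ha
          exact h0 _ ha.2 rfl)
    refine ⟨ρ, fun u hu z hz => hρ u hu z ?_⟩
    show (if u = v then g ((⌊t - s⌋ : ℤ) : ZMod 3) else
      if u ∈ S.filter (fun u => (u, ((⌊t - φ u⌋ : ℤ) : ZMod 3)) ∈ R) then some v else ptr h φ t u) = some z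
    rcases Finset.mem_insert.1 hu with hue | huS
    · rw [if_pos hue]
      unfold ptr at hz
      rw [hue, hv1, hv2] at hz
      exact hz
    · rw [if_neg (hSv u huS)]
      unfold ptr at hz
      rw [hu1 u huS, hu2 u huS] at hz
      by_cases hk : (u, ((⌊t - φ u⌋ : ℤ) : ZMod 3)) ∈ R
      · rw [if_pos hk] at hz
        have hA : u ∈ S.filter fun u => (u, ((⌊t - φ u⌋ : ℤ) : ZMod 3)) ∈ R := Finset.mem_filter.2 ⟨huS, hk⟩
        rw [if_pos hA]
        exact hz
      · rw [if_neg hk] at hz
        have hA : ¬ u ∈ S.filter fun u => (u, ((⌊t - φ u⌋ : ℤ) : ZMod 3)) ∈ R := fun h0 => hk (Finset.mem_filter.1 h0).2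
        rw [if_neg hA]
        exact hz

end

end Pool.Agent.KU
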