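import Pool.Agent.helper18.KU.Spec

set_option autoImplicit false

namespace Pool.Agent.KU

open Finset

noncomputable section

theorem NB : NB_stmt := by
  intro V _ T g
  obtain ⟨M, hM⟩ : ∃ M : Multiset V, M = ∑ u ∈ T, Multiset.replicate (g u) u := ⟨_, rfl⟩
  have hcard : M.card = ∑ u ∈ T, g u := by
    rw [hM, Multiset.card_sum]
    exact Finset.sum_congr rfl fun u _ => Multiset.card_replicate _ _
  have hcount : ∀ u ∈ T, M.count u = g u := by
    intro u hu
    rw [hM, Multiset.count_sum']
    simp only [Multiset.count_replicate]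
    rw [Finset.sum_eq_single_of_mem u hu]
    · rw [if_pos rfl]
    · intro b _ hb
      rw [if_neg hb]
  have hmem : ∀ a ∈ M, a ∈ T := by
    intro a ha
    rw [hM, Multiset.mem_sum] at ha
    obtain ⟨u, hu, hau⟩ := ha
    rw [Multiset.eq_of_mem_replicate hau]
    exact hu
  refine ⟨fun h => ?_, fun h => ?_, fun h => ?_⟩
  · rw [← hcard, Multiset.card_eq_two] at h
    obtain ⟨a, b, hab⟩ := h
    refine ⟨a, hmem a (by rw [hab]; simp), b, hmem b (by rw [hab]; simp), fun u hu => ?_⟩
    rw [← hcount u hu, hab, Multiset.insert_eq_cons, Multiset.count_cons, Multiset.count_singleton]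
    ring
  · rw [← hcard, Multiset.card_eq_three] at h
    obtain ⟨a, b, c, hab⟩ := h
    refine ⟨a, hmem a (by rw [hab]; simp), b, hmem b (by rw [hab]; simp), c, hmem c (by rw [hab]; simp), fun u hu => ?_⟩
    rw [← hcount u hu, hab, Multiset.insert_eq_cons, Multiset.insert_eq_cons, Multiset.count_cons, Multiset.count_cons,
      Multiset.count_singleton]
    ring
  · have hpos : 0 < M.card := by rw [hcard, h]; norm_num
    obtain ⟨d, hd⟩ := Multiset.card_pos_iff_exists_mem.1 hpos
    obtain ⟨M', hM'⟩ := Multiset.exists_cons_of_mem hd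
    have h3 : M'.card = 3 := by
      have h1 : M.card = M'.card + 1 := by rw [hM', Multiset.card_cons]
      omega
    rw [Multiset.card_eq_three] at h3
    obtain ⟨a, b, c, hab⟩ := h3
    refine ⟨a, hmem a (by rw [hM', hab]; simp), b, hmem b (by rw [hM', hab]; simp), c, hmem c (by rw [hM', hab]; simp),
      d, hmem d hd, fun u hu => ?_⟩
    rw [← hcount u hu, hM', hab, Multiset.count_cons, Multiset.insert_eq_cons, Multiset.insert_eq_cons, Multiset.count_cons,
      Multiset.count_cons, Multiset.count_singleton]
    ring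

end

end Pool.Agent.KU
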